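import Pool.Agent.Helper35.AR.Core

set_option autoImplicit false
set_option linter.unusedSectionVars false

open CategoryTheory Abelian RingTheory.Sequence Module Pool.Agent.Helper35.AR

namespace Pool.Agent.Results.MP_c0f807_al.GradedReduction

/-- The Auslander-Reiten conjecture holds for `M` as soon as some syzygy `N` of `M` reduces, modulo
a sequence regular on `R` and `N`, to a graded module `X` over a positively graded Artinian algebra
`A`, such that for some degree `D` in which `A` is not zero no two nonzero pieces of `X` have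
degrees differing by `D`. -/
theorem result (R : Type) [CommRing R] [IsNoetherianRing R] [IsLocalRing R]
    [HasExt.{0} (ModuleCat.{0} R)]
    (M : Type) [AddCommGroup M] [Module R M] [Module.Finite R M]
    (hMR : ∀ i : ℕ, 0 < i →
      Subsingleton (Abelian.Ext (ModuleCat.of R M) (ModuleCat.of R R) i))
    (hMM : ∀ i : ℕ, 0 < i →
      Subsingleton (Abelian.Ext (ModuleCat.of R M) (ModuleCat.of R M) i))
    -- a syzygy of `M`
    (n : ℕ) (N : Type) [AddCommGroup N] [Module R N] (hN : IsSyz R N n M)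
    -- a sequence regular on `R` and on the syzygy
    (rs : List R) (hrs : ∀ r ∈ rs, r ∈ IsLocalRing.maximalIdeal R)
    (hregR : IsWeaklyRegular R rs) (hregN : IsWeaklyRegular N rs)
    -- the quotient of `R` by the sequence is a positively graded finite-dimensional algebra
    (k A : Type) [Field k] [CommRing A] [Algebra k A] [FiniteDimensional k A] [Algebra R A]
    (hAsurj : Function.Surjective (algebraMap R A))
    (hAker : RingHom.ker (algebraMap R A) = Ideal.ofList rs)
    (𝒜 : ℤ → Submodule k A) [GradedAlgebra 𝒜] (hneg : ∀ i < 0, 𝒜 i = ⊥)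
    (hzero : ∀ a ∈ 𝒜 0, ∃ c : k, algebraMap k A c = a)
    -- the quotient of the syzygy by the sequence is a graded module
    (X : Type) [AddCommGroup X] [Module k X] [Module A X] [Module R X] [IsScalarTower k A X]
    [IsScalarTower R A X] (ρ : N →ₗ[R] X) (hρsurj : Function.Surjective ρ)
    (hρker : LinearMap.ker ρ = (Ideal.ofList rs • ⊤ : Submodule R N))
    (𝒳 : ℤ → Submodule k X) [DirectSum.Decomposition 𝒳] [SetLike.GradedSMul 𝒜 𝒳]
    -- no two nonzero pieces have degrees differing by `D`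
    (D : ℤ) (hD : 𝒜 D ≠ ⊥) (hX : ∀ e : ℤ, 𝒳 e = ⊥ ∨ 𝒳 (e + D) = ⊥) :
    Module.Free R M := by
  have hNfin : Module.Finite R N := finite_of_isSyz n M hN
  have hXR : Module.Finite R X := Module.Finite.of_surjective ρ hρsurj
  have hXA : Module.Finite A X := Module.Finite.of_restrictScalars_finite R A X
  have hXk : Module.Finite k X := Module.Finite.trans A X
  have hA : RingGd (gdOf 𝒜) :=
    { one := (SetLike.GradedOne.one_mem : (1 : A) ∈ 𝒜 0)
      mul := fun i j r s (hr : r ∈ 𝒜 i) (hs : s ∈ 𝒜 j) =>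
        (SetLike.GradedMul.mul_mem hr hs : r * s ∈ 𝒜 (i + j))
      neg := hneg
      zero := hzero }
  have hXc : Compat (gdOf 𝒜) (gdOf 𝒳) :=
    fun i j r y (hr : r ∈ 𝒜 i) (hy : y ∈ 𝒳 j) =>
      (SetLike.GradedSMul.smul_mem hr hy : r • y ∈ 𝒳 (i + j))
  exact core R M hMR hMM n N hN rs hrs hregR hregN k A hAsurj hAker (gdOf 𝒜) hA X ρ hρsurj hρker
    (gdOf 𝒳) hXc D hD hX

/-- The special case where the reduction of some syzygy (for instance of `M` itself) is generated
in one degree. -/
theorem oneDegree (R : Type) [CommRing R] [IsNoetherianRing R] [IsLocalRing R]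
    [HasExt.{0} (ModuleCat.{0} R)]
    (M : Type) [AddCommGroup M] [Module R M] [Module.Finite R M]
    (hMR : ∀ i : ℕ, 0 < i →
      Subsingleton (Abelian.Ext (ModuleCat.of R M) (ModuleCat.of R R) i))
    (hMM : ∀ i : ℕ, 0 < i →
      Subsingleton (Abelian.Ext (ModuleCat.of R M) (ModuleCat.of R M) i))
    (n : ℕ) (N : Type) [AddCommGroup N] [Module R N] (hN : IsSyz R N n M)
    (rs : List R) (hrs : ∀ r ∈ rs, r ∈ IsLocalRing.maximalIdeal R)
    (hregR : IsWeaklyRegular R rs) (hregN : IsWeaklyRegular N rs)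
    (k A : Type) [Field k] [CommRing A] [Algebra k A] [FiniteDimensional k A] [Algebra R A]
    (hAsurj : Function.Surjective (algebraMap R A))
    (hAker : RingHom.ker (algebraMap R A) = Ideal.ofList rs)
    (𝒜 : ℤ → Submodule k A) [GradedAlgebra 𝒜] (hneg : ∀ i < 0, 𝒜 i = ⊥)
    (hzero : ∀ a ∈ 𝒜 0, ∃ c : k, algebraMap k A c = a)
    (X : Type) [AddCommGroup X] [Module k X] [Module A X] [Module R X] [IsScalarTower k A X]
    [IsScalarTower R A X] (ρ : N →ₗ[R] X) (hρsurj : Function.Surjective ρ)
    (hρker : LinearMap.ker ρ = (Ideal.ofList rs • ⊤ : Submodule R N))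
    (𝒳 : ℤ → Submodule k X) [DirectSum.Decomposition 𝒳] [SetLike.GradedSMul 𝒜 𝒳]
    (g : ℤ) (hgen : Submodule.span A (𝒳 g : Set X) = ⊤) :
    Module.Free R M := by
  have hNfin : Module.Finite R N := finite_of_isSyz n M hN
  have hXR : Module.Finite R X := Module.Finite.of_surjective ρ hρsurj
  have hXA : Module.Finite A X := Module.Finite.of_restrictScalars_finite R A X
  have hXk : Module.Finite k X := Module.Finite.trans A X
  have hA : RingGd (gdOf 𝒜) :=
    { one := (SetLike.GradedOne.one_mem : (1 : A) ∈ 𝒜 0)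
      mul := fun i j r s (hr : r ∈ 𝒜 i) (hs : s ∈ 𝒜 j) =>
        (SetLike.GradedMul.mul_mem hr hs : r * s ∈ 𝒜 (i + j))
      neg := hneg
      zero := hzero }
  have hXc : Compat (gdOf 𝒜) (gdOf 𝒳) :=
    fun i j r y (hr : r ∈ 𝒜 i) (hy : y ∈ 𝒳 j) =>
      (SetLike.GradedSMul.smul_mem hr hy : r • y ∈ 𝒳 (i + j))
  exact core_one R M hMR hMM n N hN rs hrs hregR hregN k A hAsurj hAker (gdOf 𝒜) hA X ρ hρsurj
    hρker (gdOf 𝒳) hXc g hgen

end Pool.Agent.Results.MP_c0f807_al.GradedReduction
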