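import Pool.Agent.Helper35.ARC2.Class

set_option autoImplicit false

open CategoryTheory Abelian Pool.Agent.Helper35.ARC2

namespace Pool.Agent.Results.MP_c0f807_al.GrowthTower

/-- The Auslander-Reiten conjecture holds over every ring in the class `Tower`, the smallest class
of Noetherian local rings which contains the Gorenstein rings satisfying the conjecture and is
closed under growing extensions and liftings. -/
theorem result (R : Type) [CommRing R] (hR : Tower R)
    [HasExt.{0} (ModuleCat.{0} R)]
    (M : Type) [AddCommGroup M] [Module R M] [Module.Finite R M]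
    (hMR : ∀ i : ℕ, 0 < i →
      Subsingleton (Abelian.Ext (ModuleCat.of R M) (ModuleCat.of R R) i))
    (hMM : ∀ i : ℕ, 0 < i →
      Subsingleton (Abelian.Ext (ModuleCat.of R M) (ModuleCat.of R M) i)) :
    Module.Free R M :=
  hR.good.2.2.2 M hMR hMM

end Pool.Agent.Results.MP_c0f807_al.GrowthTower
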