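import Pool.Agent.Helper43.QP.Asm

set_option autoImplicit false

open CategoryTheory Abelian RingTheory.Sequence TensorProduct

namespace Pool.Agent.Results.MP_c0f807_al.QuasiHomogeneous

/-- The Auslander-Reiten conjecture holds for all finitely generated modules over `R`. -/
def ARC (R : Type) [CommRing R] : Prop :=
  ∀ [HasExt.{0} (ModuleCat.{0} R)] (M : Type) [AddCommGroup M] [Module R M] [Module.Finite R M],
    (∀ i : ℕ, 0 < i → Subsingleton (Abelian.Ext (ModuleCat.of R M) (ModuleCat.of R R) i)) →
    (∀ i : ℕ, 0 < i → Subsingleton (Abelian.Ext (ModuleCat.of R M) (ModuleCat.of R M) i)) →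
    Module.Free R M

/-- The local `k`-algebra `R` is quasi-homogeneous Gorenstein: its residue field is `k`; there is a
`k`-derivation `D` of `R` such that the maximal ideal is generated by eigenvectors of `D` with
positive integer eigenvalues; and there is a regular sequence `xs` of eigenvectors of `D` such
that `R / (xs)` is finite dimensional over `k` and its socle is spanned by one element `s`. For
instance `R` is the localization at the irrelevant maximal ideal, or the completion, of a positively
graded Gorenstein ring `A = k ⊕ A_1 ⊕ A_2 ⊕ ⋯`, finitely generated over the field `k` of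
characteristic zero. -/
structure QuasiHomogeneousGorenstein (k R : Type) [Field k] [CommRing R] [IsLocalRing R]
    [Algebra k R] : Prop where
  residue : Function.Surjective (algebraMap k (IsLocalRing.ResidueField R))
  data : ∃ (D : Derivation k R R) (n : ℕ) (y : Fin n → R) (c : Fin n → ℕ) (xs : List R) (s : R),
    (∀ i, 0 < c i) ∧ Ideal.span (Set.range y) = IsLocalRing.maximalIdeal R ∧
    (∀ i, D (y i) = c i • y i) ∧
    IsRegular R xs ∧ (∀ x ∈ xs, ∃ w : k, D x = w • x) ∧
    FiniteDimensional k (R ⧸ Ideal.ofList xs) ∧ s ∉ Ideal.ofList xs ∧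
    ∀ a : R, (∀ b ∈ IsLocalRing.maximalIdeal R, b * a ∈ Ideal.ofList xs) ↔
      ∃ t : k, a - t • s ∈ Ideal.ofList xs

/-- The local ring `R` is Gorenstein: there is a regular sequence `xs` such that `R / (xs)` is
Artinian and its socle is generated by one element `s`, not zero. -/
def Gorenstein (R : Type) [CommRing R] [IsLocalRing R] : Prop :=
  ∃ (xs : List R) (n : ℕ) (s : R), IsRegular R xs ∧
    IsLocalRing.maximalIdeal R ^ n ≤ Ideal.ofList xs ∧ s ∉ Ideal.ofList xs ∧
    ∀ a : R, (∀ b ∈ IsLocalRing.maximalIdeal R, b * a ∈ Ideal.ofList xs) ↔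
      ∃ t : R, a - t * s ∈ Ideal.ofList xs

/-- `Syzygy R N n M`: the module `N` is an `n`-th syzygy of the module `M` (`N ≅ M` for `n = 0`). -/
def Syzygy (R : Type) [CommRing R] (N : Type) [AddCommGroup N] [Module R N] :
    ℕ → (M : Type) → [AddCommGroup M] → [Module R M] → Prop
  | 0, M, _, _ => Nonempty (M ≃ₗ[R] N)
  | n + 1, M, _, _ => ∃ (m : ℕ) (π : (Fin m → R) →ₗ[R] M), Function.Surjective π ∧
      Syzygy R N n (LinearMap.ker π)

/-- The smallest class of pairs `(R, M)`, `R` a Noetherian local ring and `M` an `R`-module, with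
the following properties. -/
inductive Covered : ∀ (R : Type) [CommRing R] (M : Type) [AddCommGroup M] [Module R M], Prop
  /-- free modules -/
  | free (R : Type) [CommRing R] (M : Type) [AddCommGroup M] [Module R M]
      (h : Module.Free R M) : Covered R M
  /-- rings which satisfy the conjecture -/
  | known (R : Type) [CommRing R] (M : Type) [AddCommGroup M] [Module R M] (h : ARC R) :
      Covered R M
  /-- `R` is quasi-homogeneous Gorenstein and the pairs `(R_p, M_p)`, `p` an associated prime of
  `R`, are in the class; if `R` is reduced then `R_p` is a field and `M_p` is free -/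
  | quasiHomogeneous (k R : Type) [Field k] [CharZero k] [CommRing R] [IsNoetherianRing R]
      [IsLocalRing R] [Algebra k R] (hR : QuasiHomogeneousGorenstein k R)
      (M : Type) [AddCommGroup M] [Module R M]
      (h : ∀ (p : Ideal R) [p.IsPrime], p ∈ associatedPrimes R R →
        Covered (Localization p.primeCompl) (LocalizedModule p.primeCompl M)) : Covered R M
  /-- `R` is Gorenstein and the pairs `(R_p, M_p)` are in the class for all primes `p` which contain
  no regular sequence of length two, that is, for all primes of height at most one -/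
  | codimOne (R : Type) [CommRing R] [IsNoetherianRing R] [IsLocalRing R] (hR : Gorenstein R)
      (M : Type) [AddCommGroup M] [Module R M]
      (h : ∀ (p : Ideal R) [p.IsPrime], (∀ x ∈ p, ∀ y ∈ p, ¬ IsWeaklyRegular R [x, y]) →
        Covered (Localization p.primeCompl) (LocalizedModule p.primeCompl M)) : Covered R M
  /-- the pair `(R / x, N / x N)` is in the class for some syzygy `N` of `M` and some
  `x` in the maximal ideal which is regular on `R` and on `N` -/
  | lift (R : Type) [CommRing R] [IsNoetherianRing R] [IsLocalRing R] (x : R)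
      (hxm : x ∈ IsLocalRing.maximalIdeal R) (hx : x ∈ nonZeroDivisors R)
      (M : Type) [AddCommGroup M] [Module R M] (n : ℕ)
      (N : Type) [AddCommGroup N] [Module R N] (hN : Syzygy R N n M)
      (hxN : ∀ a : N, x • a = 0 → a = 0)
      (h : Covered (R ⧸ Ideal.span {x}) (N ⧸ (Ideal.span {x} • ⊤ : Submodule R N))) : Covered R M
  /-- `R = Q / y`, where `Q` is complete and `y` is a nonzerodivisor of its maximal ideal, and the
  pair `(Q, L)` is in the class for every finitely generated `L` such that `y` is regular on `L` and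
  `L / y L ≅ M` -/
  | quotient (Q : Type) [CommRing Q] [IsNoetherianRing Q] [IsLocalRing Q]
      [IsAdicComplete (IsLocalRing.maximalIdeal Q) Q] (y : Q) (hy : y ∈ nonZeroDivisors Q)
      (hym : y ∈ IsLocalRing.maximalIdeal Q)
      (M : Type) [AddCommGroup M] [Module (Q ⧸ Ideal.span {y}) M] [Module Q M]
      [IsScalarTower Q (Q ⧸ Ideal.span {y}) M]
      (h : ∀ (L : Type) [AddCommGroup L] [Module Q L] [Module.Finite Q L] (f : L →ₗ[Q] M),
        Function.Surjective f → (∀ a : L, f a = 0 ↔ ∃ b, a = y • b) →
        (∀ a : L, y • a = 0 → a = 0) → Covered Q L) : Covered (Q ⧸ Ideal.span {y}) M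
  /-- the pair `(S, S ⊗ M)` is in the class for some flat local homomorphism `R → S`, for instance
  for the completion `S` of `R` -/
  | flat (R S : Type) [CommRing R] [IsNoetherianRing R] [IsLocalRing R] [CommRing S]
      [IsNoetherianRing S] [IsLocalRing S] [Algebra R S] [Module.Flat R S]
      [IsLocalHom (algebraMap R S)] (M : Type) [AddCommGroup M] [Module R M]
      (h : Covered S (S ⊗[R] M)) : Covered R M

theorem syzygy_iff {R : Type} [CommRing R] {N : Type} [AddCommGroup N] [Module R N] (n : ℕ) :
    ∀ (M : Type) [AddCommGroup M] [Module R M], Syzygy R N n M →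
      Pool.Agent.Helper35.AR.IsSyz R N n M := by
  induction n with
  | zero => intro M _ _ h; exact h
  | succ n ih =>
    intro M _ _ h
    obtain ⟨m, π, hπ, h⟩ := h
    exact ⟨m, π, hπ, ih _ h⟩

theorem covered_van {R : Type} [CommRing R] {M : Type} [AddCommGroup M] [Module R M]
    (h : Covered R M) : ∀ [HasExt.{0} (ModuleCat.{0} R)] [Module.Finite R M],
      Pool.Agent.Helper43.QH.Van R M → Module.Free R M := by
  induction h with
  | free R M h => intro _ _ _; exact h
  | known R M h => intro _ _ hM; exact h M hM.1 hM.2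
  | quasiHomogeneous k R hR M h ih =>
    intro _ _ hM
    obtain ⟨hres, D, n, y, c, xs, s, hc, hy, hD, hreg, hx, hfin, hs, hsoc⟩ := hR
    obtain ⟨ρ⟩ := Pool.Agent.Helper43.QH.exists_retraction hres
    have hpos : Pool.Agent.Helper43.QH.Pos D := ⟨n, y, c, hc, hy, hD⟩
    refine Pool.Agent.Helper43.QH.main ρ hpos xs hreg hx hfin s hs hsoc M hM.1 hM.2
      (fun p hp => ?_)
    have hpp : p.IsPrime := hp.isPrime
    exact Pool.Agent.Helper43.QH.exists_of_free_localized p
      (ih p hp (Pool.Agent.Helper43.QH.van_localized hM p))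
  | codimOne R hR M h ih =>
    intro _ _ hM
    obtain ⟨xs, n, s, hreg, hn, hs, hsoc⟩ := hR
    refine Pool.Agent.Helper43.QH.araya_main xs hreg ⟨⟨n, hn⟩, s, hs, hsoc⟩ M hM
      (fun p _ hp => ?_)
    exact Pool.Agent.Helper43.QH.exists_of_free_localized p
      (ih p hp (Pool.Agent.Helper43.QH.van_localized hM p))
  | lift R x hxm hx M n N hN hxN h ih =>
    intro _ _ hM
    exact Pool.Agent.Helper43.QH.lift_step x hxm hx M hM n N (syzygy_iff n M hN) hxN ih
  | quotient Q y hy hym M h ih =>
    intro _ _ hM
    exact Pool.Agent.Helper43.QH.quotient_step y hy hym M hM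
      (fun L _ _ f hf _ _ hL => ih L f hf.surj hf.ker hf.reg hL)
  | flat R S M h ih =>
    intro _ _ hM
    exact Pool.Agent.Helper43.QH.flat_step M hM ih

/-- The Auslander-Reiten conjecture holds for the pairs of the class. -/
theorem result (R : Type) [CommRing R] [HasExt.{0} (ModuleCat.{0} R)]
    (M : Type) [AddCommGroup M] [Module R M] [Module.Finite R M] (h : Covered R M)
    (hMR : ∀ i : ℕ, 0 < i →
      Subsingleton (Abelian.Ext (ModuleCat.of R M) (ModuleCat.of R R) i))
    (hMM : ∀ i : ℕ, 0 < i →
      Subsingleton (Abelian.Ext (ModuleCat.of R M) (ModuleCat.of R M) i)) :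
    Module.Free R M :=
  covered_van h ⟨hMR, hMM⟩

end Pool.Agent.Results.MP_c0f807_al.QuasiHomogeneous
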