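import Pool.Agent.Helper35.AR.LoewyCore

set_option autoImplicit false

open CategoryTheory Abelian RingTheory.Sequence Pool.Agent.Helper35.AR

namespace Pool.Agent.Results.MP_c0f807_al.SquareKilledSyzygy

/-- The Auslander-Reiten conjecture holds for `M` as soon as some syzygy `N` of `M` satisfies
`m ^ 2 N ⊆ x N` for a sequence `x` in the maximal ideal `m` which is regular on `R` and on `N`
(`x` may be empty). -/
theorem result (R : Type) [CommRing R] [IsNoetherianRing R] [IsLocalRing R]
    [HasExt.{0} (ModuleCat.{0} R)]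
    (M : Type) [AddCommGroup M] [Module R M] [Module.Finite R M]
    (hMR : ∀ i : ℕ, 0 < i →
      Subsingleton (Abelian.Ext (ModuleCat.of R M) (ModuleCat.of R R) i))
    (hMM : ∀ i : ℕ, 0 < i →
      Subsingleton (Abelian.Ext (ModuleCat.of R M) (ModuleCat.of R M) i))
    -- a syzygy of `M`
    (n : ℕ) (N : Type) [AddCommGroup N] [Module R N] (hN : IsSyz R N n M)
    -- a sequence regular on `R` and on the syzygy
    (rs : List R) (hrs : ∀ r ∈ rs, r ∈ IsLocalRing.maximalIdeal R)
    (hregR : IsWeaklyRegular R rs) (hregN : IsWeaklyRegular N rs)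
    (hN2 : (IsLocalRing.maximalIdeal R ^ 2 • ⊤ : Submodule R N) ≤ Ideal.ofList rs • ⊤) :
    Module.Free R M :=
  loewy_core R M hMR hMM n N hN rs hrs hregR hregN hN2

end Pool.Agent.Results.MP_c0f807_al.SquareKilledSyzygy
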